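import Pool.Agent.Run7.h838.LF.Fam
import Pool.Agent.R352.E.Gz

/-!
# Positive rational points at which the Gompertz function is algebraic over `F(e)`, and fields
which contain a given Liouville number
-/

set_option autoImplicit false

open Filter Topology Set MeasureTheory

namespace Run7.h838.LF

open Pool.Agent.R352.E Pool.Agent.Q163.LE

variable {F : Subfield ℝ}

lemma ai_gz (hF : SimLiouville F) (X : Set ℚ)
    (hX : ∀ x ∈ X, 0 < x ∧ gz x ∈ clF ((F : Set ℝ) ∪ {Real.exp 1})) :
    AlgebraicIndependent F (fun o : Option X => o.elim (Real.exp 1)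
      (fun x => Real.eulerMascheroniConstant + Real.log (x : ℚ))) := by
  classical
  let y : X → ℝ := fun x => Real.eulerMascheroniConstant + Real.log (x : ℚ)
  refine algebraicIndependent_of_finite_type fun t ht => ?_
  have := ht.fintype
  -- the finite set of points
  let G : Set (Option X) := insert none t
  have hG : G.Finite := ht.insert _
  have := hG.fintype
  have key : AlgebraicIndependent F (fun o : G => (o : Option X).elim (Real.exp 1) y) := by
    have h := EE_alg_Q hF 1 (ι := X) (fun x => (x : ℚ)) Subtype.val_injective (fun x => (hX x x.2).1)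
    let f : G → Option (Fin 1 × X) := fun o => (o : Option X).map fun x => (0, x)
    have hf : Function.Injective f := by
      intro o o' hoo
      refine Subtype.ext (Option.map_injective ?_ hoo)
      intro a b hab
      exact (Prod.mk.inj hab).2
    refine indep_of_spanF (h.comp f hf) (fun o => ?_) le_rfl
    have he : Real.exp 1 ∈ clF ((F : Set ℝ) ∪
        range fun o : G => (o : Option X).elim (Real.exp 1) y) :=
      subset_clF _ (Or.inr ⟨⟨none, Or.inl rfl⟩, rfl⟩)
    obtain ⟨o, ho⟩ := o
    cases o with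
    | none => exact he
    | some x =>
      have hx := (hX x x.2).1
      have hx' : (0 : ℝ) < (x : ℚ) := by exact_mod_cast hx
      have hle : clF ((F : Set ℝ) ∪ {Real.exp 1}) ≤ clF ((F : Set ℝ) ∪
          range fun o : G => (o : Option X).elim (Real.exp 1) y) := by
        refine clF_le ?_
        rintro z (hz | rfl)
        · exact subset_clF _ (Or.inl hz)
        · exact he
      change EE ((0 : Fin 1) + 1) (x : ℚ) ∈ _
      refine EE_mem hx he ?_ _ (fun k hk hk' => ?_) ?_
      · exact subset_clF _ (Or.inr ⟨⟨some x, ho⟩, rfl⟩)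
      · simp at hk'
        omega
      · simp only [Fin.val_zero, zero_add]
        rw [dl_one hx']
        exact hle (hX x x.2).2
  have h2 := key.comp (fun o : t => (⟨o.1, Or.inr o.2⟩ : G)) (by
    intro a b hab
    have := congrArg Subtype.val hab
    exact Subtype.ext this)
  exact h2

/-- no multiplicative relation of degree zero -/
lemma gz_rel {X : Set ℚ} (hX : ∀ x ∈ X, 0 < x)
    (hAI : AlgebraicIndependent F (fun o : Option X => o.elim (Real.exp 1)
      (fun x => Real.eulerMascheroniConstant + Real.log (x : ℚ))))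
    (n : X →₀ ℤ) (h0 : n.sum (fun _ m => m) = 0) (h1 : n.prod (fun x m => (x : ℚ) ^ m) = 1) :
    n = 0 := by
  have hLI : LinearIndependent F (fun x : X => Real.eulerMascheroniConstant + Real.log (x : ℚ)) :=
    (hAI.comp some (Option.some_injective _)).linearIndependent
  have h2 : ∑ x ∈ n.support, (n x : ℝ) * (Real.eulerMascheroniConstant + Real.log (x : ℚ)) = 0 := by
    simp only [mul_add]
    rw [Finset.sum_add_distrib, ← Finset.sum_mul]
    have e1 : ∑ x ∈ n.support, (n x : ℝ) = 0 := by
      have : n.sum (fun _ m => m) = ∑ x ∈ n.support, n x := rfl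
      rw [this] at h0
      exact_mod_cast congrArg (Int.cast : ℤ → ℝ) h0
    have e2 : ∑ x ∈ n.support, (n x : ℝ) * Real.log (x : ℚ) = 0 := by
      have h3 : Real.log ((n.prod (fun x m => (x : ℚ) ^ m) : ℚ) : ℝ) =
          ∑ x ∈ n.support, (n x : ℝ) * Real.log (x : ℚ) := by
        rw [Finsupp.prod]
        push_cast
        rw [Real.log_prod]
        · refine Finset.sum_congr rfl fun x _ => ?_
          rw [Real.log_zpow]
        · intro x _
          have : ((x : ℚ) : ℝ) ≠ 0 := by exact_mod_cast (hX x x.2).ne'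
          exact zpow_ne_zero _ this
      rw [← h3, h1]
      simp
    rw [e1, e2]
    ring
  have h4 := (linearIndependent_iff'.1 hLI) n.support (fun x => (n x : F)) (by
    rw [← h2]
    refine Finset.sum_congr rfl fun x _ => ?_
    rw [Algebra.smul_def]
    simp)
  ext x
  by_cases hx : x ∈ n.support
  · have := h4 x hx
    exact_mod_cast this
  · simpa using hx

/-- at most two terms of a geometric progression -/
lemma gz_three {X : Set ℚ} (hX : ∀ x ∈ X, 0 < x)
    (hAI : AlgebraicIndependent F (fun o : Option X => o.elim (Real.exp 1)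
      (fun x => Real.eulerMascheroniConstant + Real.log (x : ℚ))))
    (x : ℚ) (hx : x ∈ X) (y : ℚ) (hy : y ∈ X) (z : ℚ) (hz : z ∈ X) (hxyz : x * z = y ^ 2) :
    x = y ∧ y = z := by
  have hrel := gz_rel hX hAI
  by_contra hcon
  have hx0 : x ≠ 0 := (hX x hx).ne'
  have hxy : x ≠ y := by
    rintro rfl
    apply hcon
    refine ⟨rfl, ?_⟩
    have : x * (z - x) = 0 := by linear_combination hxyz
    rcases mul_eq_zero.1 this with h | h
    · exact absurd h hx0
    · linarith
  have hzy : z ≠ y := by
    rintro rfl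
    apply hxy
    have hz0 : z ≠ 0 := (hX z hz).ne'
    have : z * (x - z) = 0 := by linear_combination hxyz
    rcases mul_eq_zero.1 this with h | h
    · exact absurd h hz0
    · linarith
  have hxz : x ≠ z := by
    rintro rfl
    have h1 : (x - y) * (x + y) = 0 := by linear_combination hxyz
    rcases mul_eq_zero.1 h1 with h | h
    · exact hxy (by linarith)
    · have := hX x hx
      have := hX y hy
      linarith
  let n : X →₀ ℤ := Finsupp.single ⟨x, hx⟩ 1 + Finsupp.single ⟨z, hz⟩ 1 + Finsupp.single ⟨y, hy⟩ (-2)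
  have hn0 : n.sum (fun _ m => m) = 0 := by
    rw [Finsupp.sum_add_index' (fun _ => rfl) (fun _ _ _ => rfl),
      Finsupp.sum_add_index' (fun _ => rfl) (fun _ _ _ => rfl),
      Finsupp.sum_single_index rfl, Finsupp.sum_single_index rfl, Finsupp.sum_single_index rfl]
    norm_num
  have hn1 : n.prod (fun x m => (x : ℚ) ^ m) = 1 := by
    have hadd : ∀ (a : X) (b₁ b₂ : ℤ), (a : ℚ) ^ (b₁ + b₂) = (a : ℚ) ^ b₁ * (a : ℚ) ^ b₂ :=
      fun a b₁ b₂ => zpow_add₀ (hX a a.2).ne' b₁ b₂
    rw [Finsupp.prod_add_index' (fun a => zpow_zero _) (fun a b₁ b₂ => hadd a b₁ b₂),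
      Finsupp.prod_add_index' (fun a => zpow_zero _) (fun a b₁ b₂ => hadd a b₁ b₂),
      Finsupp.prod_single_index (zpow_zero _), Finsupp.prod_single_index (zpow_zero _),
      Finsupp.prod_single_index (zpow_zero _)]
    simp only [zpow_one]
    rw [hxyz]
    have hy0 : y ≠ 0 := (hX y hy).ne'
    rw [zpow_neg]
    field_simp
  have h2 := hrel n hn0 hn1
  have h3 : n ⟨x, hx⟩ = 0 := by rw [h2]; rfl
  have e1 : (⟨z, hz⟩ : X) ≠ ⟨x, hx⟩ := fun h => hxz (congrArg Subtype.val h).symm
  have e2 : (⟨y, hy⟩ : X) ≠ ⟨x, hx⟩ := fun h => hxy (congrArg Subtype.val h).symm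
  simp [n, e1, e2] at h3

/-- every Liouville number lies in a simultaneously Liouville field -/
theorem liouville_field {ξ : ℝ} (hξ : Liouville ξ) : ∃ F : Subfield ℝ, SimLiouville F ∧ ξ ∈ F := by
  have h : ∀ n : ℕ, ∃ b : ℕ, n + 2 ≤ b ∧ ∃ a : ℤ, |ξ - a / b| < 1 / (b : ℝ) ^ n := by
    intro n
    obtain ⟨b, hb, a, _, hab⟩ :=
      ((eventually_ge_atTop (n + 2)).and_frequently (hξ.frequently_exists_num n)).exists
    exact ⟨b, hb, a, hab⟩
  choose b hb a ha using h
  have hbn : ∀ n : ℕ, ((n : ℕ) : ℝ) + 2 ≤ b n := fun n => by exact_mod_cast hb n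
  have hb0 : ∀ n, (0 : ℝ) < b n := fun n => by
    have := hbn n
    have h0 : (0 : ℝ) ≤ n := Nat.cast_nonneg n
    linarith
  have hb1 : ∀ n, (1 : ℝ) ≤ b n := fun n => by
    have := hbn n
    have h0 : (0 : ℝ) ≤ n := Nat.cast_nonneg n
    linarith
  have hT : Tendsto (fun n => Real.log (b n)) atTop atTop := by
    refine Real.tendsto_log_atTop.comp ?_
    refine tendsto_atTop_mono (fun n => ?_) tendsto_natCast_atTop_atTop
    have := hbn n
    linarith
  refine ⟨ApField _ hT, sim_apField _ hT, ?_⟩
  show Ap (fun n => Real.log (b n)) ξ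
  refine ⟨2, by norm_num, fun E => ?_⟩
  filter_upwards [eventually_ge_atTop ⌈|ξ| + |E| + 1⌉₊] with n hn
  have hn' : |ξ| + |E| + 1 ≤ n := (Nat.le_ceil _).trans (by exact_mod_cast hn)
  have hexp : Real.exp (2 * Real.log (b n)) = (b n : ℝ) ^ 2 := by
    rw [← Real.exp_log (hb0 n), ← Real.exp_nat_mul, Real.exp_log (hb0 n)]
    norm_num
  have hbne : (b n : ℝ) ≠ 0 := (hb0 n).ne'
  have hpow : (1 : ℝ) ≤ (b n : ℝ) ^ n := one_le_pow₀ (hb1 n)
  refine ⟨a n, b n, ?_, ?_, ?_, ?_⟩
  · have := hb n
    exact_mod_cast (by omega : b n ≠ 0)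
  · rw [hexp]
    have h1 : |ξ - a n / b n| ≤ 1 := (ha n).le.trans (by
      rw [div_le_one (by positivity)]; exact hpow)
    have h2 : |(a n : ℝ) / b n| ≤ |ξ| + 1 := by
      have h3 := abs_sub_abs_le_abs_sub ((a n : ℝ) / b n) ξ
      rw [abs_sub_comm] at h3
      linarith
    rw [abs_div, abs_of_pos (hb0 n), div_le_iff₀ (hb0 n)] at h2
    have h4 : |ξ| + 1 ≤ b n := by
      have := hbn n
      have := abs_nonneg E
      linarith
    calc |(a n : ℝ)| ≤ (|ξ| + 1) * b n := h2
      _ ≤ b n * b n := mul_le_mul_of_nonneg_right h4 (hb0 n).le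
      _ = (b n : ℝ) ^ 2 := by ring
  · rw [hexp, Int.cast_natCast, abs_of_pos (hb0 n)]
    nlinarith [hb1 n]
  · refine (ha n).le.trans ?_
    have h1 : 1 / (b n : ℝ) ^ n = Real.exp (-(n * Real.log (b n))) := by
      rw [Real.exp_neg, Real.exp_nat_mul, Real.exp_log (hb0 n), one_div]
    rw [h1, Real.exp_le_exp]
    have h2 : 0 ≤ Real.log (b n) := Real.log_nonneg (hb1 n)
    have h3 : E ≤ n := by
      have := abs_nonneg ξ
      have := le_abs_self E
      linarith
    have := mul_le_mul_of_nonneg_right h3 h2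
    linarith

end Run7.h838.LF
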