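import Pool.Agent.N743.SS.Multi
import Pool.Agent.Q163.LE.Tr

/-!
# Measures of algebraic independence give algebraic independence over simultaneously Liouville
fields
-/

set_option autoImplicit false

namespace Run7.h838.LF

open Pool.Agent.Q163.LE Pool.Agent.N743.SS

/-- **Transfer.** A family with a measure of algebraic independence which is polynomial in the
height for every degree is algebraically independent over every simultaneously Liouville field. -/
theorem ai_of_measM {ι : Type} {x : ι → ℝ} (hx : MeasM x) {F : Subfield ℝ} (hF : SimLiouville F) :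
    AlgebraicIndependent F x := by
  classical
  rw [algebraicIndependent_iff]
  intro p hp
  obtain ⟨κ, c, hκ, hc, hm⟩ := hx p.totalDegree
  set m : ℕ := Fintype.card p.support with hmdef
  let e : Fin m ≃ p.support := (Fintype.equivFin _).symm
  let u : Fin m → ℝ := fun i => (e i).1.prod fun j k => x j ^ k
  have hli : LinearIndependent F u := by
    refine lin_indep hF _ ⌈κ⌉₊ c hc fun z H hz hH hzH => ?_
    let P : MvPolynomial ι ℤ := ∑ i, MvPolynomial.monomial (e i).1 (z i)
    have hcoef : ∀ s, P.coeff s = ∑ i, if (e i).1 = s then z i else 0 := by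
      intro s
      simp only [P, MvPolynomial.coeff_sum, MvPolynomial.coeff_monomial]
    have hcoef1 : ∀ j, P.coeff (e j).1 = z j := by
      intro j
      rw [hcoef, Finset.sum_eq_single j]
      · rw [if_pos rfl]
      · intro i _ hij
        rw [if_neg]
        intro h
        exact hij (e.injective (Subtype.ext h))
      · intro h
        exact absurd (Finset.mem_univ _) h
    have hcoef2 : ∀ s, s ∉ p.support → P.coeff s = 0 := by
      intro s hs
      rw [hcoef]
      refine Finset.sum_eq_zero fun i _ => ?_
      rw [if_neg]
      intro h
      exact hs (h ▸ (e i).2)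
    have hP0 : P ≠ 0 := by
      intro h0
      apply hz
      funext j
      rw [← hcoef1 j, h0, MvPolynomial.coeff_zero]
      rfl
    have hdeg : P.totalDegree ≤ p.totalDegree := by
      refine Finset.sup_le fun s hs => ?_
      by_cases hs' : s ∈ p.support
      · exact MvPolynomial.le_totalDegree hs'
      · exact absurd (hcoef2 s hs') (MvPolynomial.mem_support_iff.1 hs)
    have hval : MvPolynomial.aeval x P = ∑ i, (z i : ℝ) * u i := by
      simp only [P, map_sum, MvPolynomial.aeval_monomial]
      rfl
    have hmain := hm P hP0 hdeg H (fun s => by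
      by_cases hs' : s ∈ p.support
      · have := hcoef1 (e.symm ⟨s, hs'⟩)
        rw [e.apply_symm_apply] at this
        rw [this]
        exact hzH _
      · rw [hcoef2 s hs', Int.cast_zero, abs_zero]
        linarith)
    rw [hval] at hmain
    refine le_trans ?_ hmain
    have hH0 : (0 : ℝ) < H := by linarith
    rw [Real.rpow_neg hH0.le, ← div_eq_mul_inv]
    refine div_le_div_of_nonneg_left hc.le (Real.rpow_pos_of_pos hH0 _) ?_
    rw [← Real.rpow_natCast]
    exact Real.rpow_le_rpow_of_exponent_le hH (Nat.le_ceil κ)
  rw [Fintype.linearIndependent_iff] at hli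
  have hz := hli (fun i => p.coeff (e i).1) (by
    rw [← hp]
    conv_rhs => rw [MvPolynomial.as_sum p, map_sum, ← Finset.sum_coe_sort]
    rw [← Equiv.sum_comp e]
    refine Finset.sum_congr rfl fun i _ => ?_
    rw [MvPolynomial.aeval_monomial]
    rfl)
  ext s
  by_cases hs : s ∈ p.support
  · have := hz (e.symm ⟨s, hs⟩)
    rw [e.apply_symm_apply] at this
    rw [this, MvPolynomial.coeff_zero]
  · rw [MvPolynomial.notMem_support_iff.1 hs, MvPolynomial.coeff_zero]

end Run7.h838.LF
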